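import Mathlib
import Pool.Agent.MP_75c26c_pr.Transfer

namespace Pool.Agent.Results.MP_75c26c_pr.MomentClasses

open MeasureTheory Pool.Agent.MP_75c26c_pr
open scoped NNReal

/-- In the class of laws whose first coordinate has a finite `p`-th moment (`p = 0`: no
condition), the map has exactly one fixed point for all admissible parameters iff `1 ≤ p ≤ 2`;
existence holds for all admissible parameters iff `p ≤ 2`, uniqueness iff `1 ≤ p`. -/
theorem result (p : ℝ) (hp : 0 ≤ p) :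
    ((∀ (α β : ℝ≥0) (D : Measure ℝ), Admissible α β D → ∃! π, IsFixedPoint α β D p π) ↔
      1 ≤ p ∧ p ≤ 2) ∧
    ((∀ (α β : ℝ≥0) (D : Measure ℝ), Admissible α β D → ∃ π, IsFixedPoint α β D p π) ↔ p ≤ 2) ∧
    ((∀ (α β : ℝ≥0) (D : Measure ℝ), Admissible α β D →
      ∀ π π', IsFixedPoint α β D p π → IsFixedPoint α β D p π' → π = π') ↔ 1 ≤ p) := by
  have hE : (∀ (α β : ℝ≥0) (D : Measure ℝ), Admissible α β D → ∃ π, IsFixedPoint α β D p π) ↔
      p ≤ 2 := by
    refine ⟨fun h => not_lt.mp fun h2 => ?_, ?_⟩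
    · obtain ⟨D, a1, a2, a3, a4⟩ := exists_none h2 one_pos one_pos
      obtain ⟨π, hπ⟩ := h 1 1 D ⟨one_pos, one_pos, a1, a2, a3⟩
      exact a4 π hπ
    · rintro h2 α β D ⟨-, -, _, a2, a3⟩
      obtain ⟨π, hπ, -⟩ := existsUnique_fixedPoint (α := α) (β := β) one_le_two le_rfl a2 a3
      exact ⟨π, hπ.mono hp h2⟩
  have hU : (∀ (α β : ℝ≥0) (D : Measure ℝ), Admissible α β D →
      ∀ π π', IsFixedPoint α β D p π → IsFixedPoint α β D p π' → π = π') ↔ 1 ≤ p := by
    refine ⟨fun h => not_lt.mp fun h1 => ?_, ?_⟩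
    · obtain ⟨α, β, D, a1, a2, a3, a4, a5, π, π', b1, b2, b3⟩ := exists_not_unique hp h1
      exact b3 (h α β D ⟨a1, a2, a3, a4, a5⟩ π π' b1 b2)
    · rintro h1 α β D ⟨-, -, _, a2, a3⟩ π π' b1 b2
      exact (existsUnique_fixedPoint le_rfl one_le_two a2 a3).unique (b1.mono zero_le_one h1)
        (b2.mono zero_le_one h1)
  refine ⟨⟨fun h => ⟨hU.mp fun α β D a π π' b b' => (h α β D a).unique b b',
    hE.mp fun α β D a => (h α β D a).exists⟩, fun h α β D a => ?_⟩, hE, hU⟩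
  exact existsUnique_of_exists_of_unique (hE.mpr h.2 α β D a) (hU.mpr h.1 α β D a)

end Pool.Agent.Results.MP_75c26c_pr.MomentClasses
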